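import Mathlib

set_option autoImplicit false

namespace Pool.Agent.Results.MP_98930f_lc.Counter

/-- A trajectory `c_0, ..., c_len` with positions `p i` and velocities `v i`. -/
structure Traj (d : ℕ) where
  len : ℕ
  p : ℕ → Fin d → ℤ
  v : ℕ → Fin d → ℤ
  hv : ∀ i < len, ∀ k, v (i + 1) k = p (i + 1) k - p i k
  ha : ∀ i < len, ∀ k, v (i + 1) k - v i k = -1 ∨ v (i + 1) k - v i k = 0 ∨ v (i + 1) k - v i k = 1

/-- The configuration `(p, v)` visits `x`: `x` lies on the closed segment from `p - v` to `p`. -/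
def Visits {d : ℕ} (p v x : Fin d → ℤ) : Prop :=
  (fun k => (x k : ℝ)) ∈ segment ℝ (fun k => ((p k - v k : ℤ) : ℝ)) (fun k => (p k : ℝ))

def Feasible {d n : ℕ} (x : Fin (n + 1) → Fin d → ℤ) (T : Traj d) : Prop :=
  T.p 0 = x 0 ∧ T.v 0 = 0 ∧ T.p T.len = x (Fin.last n) ∧ T.v T.len = 0 ∧
    ∃ idx : Fin (n + 1) → ℕ, Monotone idx ∧ (∀ j, idx j ≤ T.len) ∧
      ∀ j, Visits (T.p (idx j)) (T.v (idx j)) (x j)

def Optimal {d n : ℕ} (x : Fin (n + 1) → Fin d → ℤ) (T : Traj d) : Prop :=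
  Feasible x T ∧ ∀ T' : Traj d, Feasible x T' → T.len ≤ T'.len

/-- The quantity `L`: the largest coordinate difference of two cities. -/
def spread {d n : ℕ} (x : Fin (n + 1) → Fin d → ℤ) : ℕ :=
  Finset.univ.sup fun q : Fin (n + 1) × Fin (n + 1) × Fin d =>
    (x q.1 q.2.2 - x q.2.1 q.2.2).natAbs

def cx (k : ℕ) : ℕ := [9, 4, 1, 0, 0, 9].getD k 0
def cy (k : ℕ) : ℕ := [9, 2, 2, 2, 9, 2].getD k 0

def cities : Fin 6 → Fin 2 → ℤ := fun j => ![(cx j : ℤ), (cy j : ℤ)]

/-! Bitset search -/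

def force {α : Type} (c : ℕ) (k : ℕ → α) : α :=
  match c with
  | 0 => k 0
  | n + 1 => k (n + 1)

lemma force_eq {α : Type} (c : ℕ) (k : ℕ → α) : force c k = k c := by
  cases c <;> rfl

def seg (a b dx dy : ℕ) : Bool :=
  decide (((dx : ℤ) - 3) * ((b : ℤ) - 3) = ((dy : ℤ) - 3) * ((a : ℤ) - 3)) &&
  decide (0 ≤ ((dx : ℤ) - 3) * ((a : ℤ) - 3)) && decide (0 ≤ ((dy : ℤ) - 3) * ((b : ℤ) - 3)) &&
  decide (((dx : ℤ) - 3) * ((dx : ℤ) - 3) ≤ ((a : ℤ) - 3) * ((a : ℤ) - 3)) &&
  decide (((dy : ℤ) - 3) * ((dy : ℤ) - 3) ≤ ((b : ℤ) - 3) * ((b : ℤ) - 3))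

def orL (f : ℕ → ℕ) : ℕ → ℕ
  | 0 => 0
  | n + 1 => f n ||| orL f n

lemma orL_bit (f : ℕ → ℕ) (q : ℕ) : ∀ n i, i < n → (f i).testBit q = true →
    (orL f n).testBit q = true
  | 0, _, h, _ => absurd h (by omega)
  | n + 1, i, h, hb => by
      unfold orL
      rw [Nat.testBit_or]
      rcases Nat.lt_succ_iff_lt_or_eq.1 h with h | h
      · simp [orL_bit f q n i h hb]
      · subst h; simp [hb]

def pat (a b : ℕ) : ℕ :=
  orL (fun dx => orL (fun dy => if seg a b dx dy then 1 <<< (dx * 128 + dy) else 0) 7) 7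

def mask (t a b : ℕ) : ℕ :=
  force (pat a b) fun P => orL (fun k => P <<< (k * 16384 + (cx k + 3 * t) * 128 + (cy k + 3 * t))) 6

lemma shl_bit (c s q : ℕ) (h : c.testBit q = true) : (c <<< s).testBit (q + s) = true := by
  rw [Nat.testBit_shiftLeft]
  simp [h]

lemma mask_bit (t a b k dx dy : ℕ) (hk : k < 6) (hx : dx < 7) (hy : dy < 7)
    (hs : seg a b dx dy = true) :
    (mask t a b).testBit (k * 16384 + ((cx k + dx + 3 * t) * 128 + (cy k + dy + 3 * t))) = true := by
  unfold mask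
  rw [force_eq]
  apply orL_bit _ _ 6 k hk
  have h1 : (pat a b).testBit (dx * 128 + dy) = true := by
    unfold pat
    apply orL_bit _ _ 7 dx hx
    apply orL_bit _ _ 7 dy hy
    rw [if_pos hs]
    have := shl_bit 1 (dx * 128 + dy) 0 (by decide)
    simpa using this
  have h2 := shl_bit _ (k * 16384 + (cx k + 3 * t) * 128 + (cy k + 3 * t)) _ h1
  convert h2 using 2
  ring

def close (M : ℕ) : ℕ → ℕ → ℕ
  | 0, c => c
  | r + 1, c => force (c ||| ((c &&& M) <<< 16384)) fun c' => close M r c'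

lemma close_bit (M q : ℕ) : ∀ (r c k m : ℕ), m ≤ r → c.testBit (k * 16384 + q) = true →
    (∀ j, k ≤ j → j < k + m → M.testBit (j * 16384 + q) = true) →
    (close M r c).testBit ((k + m) * 16384 + q) = true
  | 0, c, k, m, hm, hc, _ => by
      have : m = 0 := by omega
      subst this
      simpa [close] using hc
  | r + 1, c, k, 0, _, hc, _ => by
      unfold close
      rw [force_eq]
      apply close_bit M q r _ k 0 (by omega) _ (fun j h1 h2 => by omega)
      rw [Nat.testBit_or, hc]; rfl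
  | r + 1, c, k, m + 1, hm, hc, hM => by
      unfold close
      rw [force_eq]
      have h := close_bit M q r (c ||| ((c &&& M) <<< 16384)) (k + 1) m (by omega) ?_
        (fun j h1 h2 => hM j (by omega) (by omega))
      · rwa [show k + 1 + m = k + (m + 1) by omega] at h
      · rw [Nat.testBit_or]
        have h1 : (c &&& M).testBit (k * 16384 + q) = true := by
          rw [Nat.testBit_and, hc, hM k le_rfl (by omega)]; rfl
        have h2 := shl_bit _ 16384 _ h1
        rw [show (k + 1) * 16384 + q = k * 16384 + q + 16384 by ring, h2]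
        simp

def get (T : List ℕ) (a b : ℕ) : ℕ := if b < 7 then T.getD (a * 7 + b) 0 else 0

def nb (T : List ℕ) (a b : ℕ) : ℕ :=
  orL (fun i => orL (fun j => get T (a + i - 1) (b + j - 1)) 3) 3

def cell (t : ℕ) (T : List ℕ) (s : ℕ) : ℕ :=
  force (mask t (s / 7) (s % 7)) fun M =>
    force (nb T (s / 7) (s % 7) <<< (s / 7 * 128 + s % 7)) fun c => close M 6 c

def build {α : Type} (f : ℕ → ℕ) : ℕ → List ℕ → (List ℕ → α) → α
  | 0, acc, k => k acc
  | n + 1, acc, k => force (f n) fun c => build f n (c :: acc) k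

lemma build_eq {α : Type} (f : ℕ → ℕ) : ∀ (n : ℕ) (acc : List ℕ) (k : List ℕ → α),
    build f n acc k = k ((List.range n).map f ++ acc)
  | 0, acc, k => by simp [build]
  | n + 1, acc, k => by
      unfold build
      rw [force_eq, build_eq f n, List.range_succ]
      simp

def run : ℕ → ℕ → List ℕ → Bool
  | 0, _, _ => true
  | f + 1, t, T =>
      !((get T 3 3).testBit (6 * 16384 + ((12 + 3 * t) * 128 + (5 + 3 * t)))) &&
        build (cell (t + 1) T) 49 [] fun T' => run f (t + 1) T'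

def tab0 (s : ℕ) : ℕ := if s = 24 then close (mask 0 3 3) 6 (1 <<< (12 * 128 + 12)) else 0

def tab : ℕ → List ℕ
  | 0 => (List.range 49).map tab0
  | t + 1 => (List.range 49).map (cell (t + 1) (tab t))

lemma run_ok : build tab0 49 [] (fun T => run 19 0 T) = true := by
  decide +kernel

lemma run_spec : ∀ (f t : ℕ), run f t (tab t) = true → ∀ u, t ≤ u → u < t + f →
    (get (tab u) 3 3).testBit (6 * 16384 + ((12 + 3 * u) * 128 + (5 + 3 * u))) = false
  | 0, _, _, u, h1, h2 => by omega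
  | f + 1, t, h, u, h1, h2 => by
      unfold run at h
      rw [build_eq, List.append_nil, Bool.and_eq_true] at h
      rcases Nat.eq_or_lt_of_le h1 with e | e
      · subst e
        simpa using h.1
      · exact run_spec f (t + 1) h.2 u e (by omega)

lemma final_false (u : ℕ) (hu : u ≤ 18) :
    (get (tab u) 3 3).testBit (6 * 16384 + ((12 + 3 * u) * 128 + (5 + 3 * u))) = false := by
  have h := run_ok
  rw [build_eq, List.append_nil] at h
  exact run_spec 19 0 h u (by omega) (by omega)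

lemma get_map (f : ℕ → ℕ) (a b : ℕ) (ha : a < 7) (hb : b < 7) :
    get ((List.range 49).map f) a b = f (a * 7 + b) := by
  unfold get
  rw [if_pos hb, List.getD_eq_getElem _ _ (by simp; omega)]
  simp

lemma visit_seg (p v x : Fin 2 → ℤ) (h : Visits p v x) (h0 : |v 0| ≤ 3) (h1 : |v 1| ≤ 3) :
    ∃ dx dy : ℕ, dx < 7 ∧ dy < 7 ∧ p 0 + 3 = x 0 + dx ∧ p 1 + 3 = x 1 + dy ∧
      seg (v 0 + 3).toNat (v 1 + 3).toNat dx dy = true := by
  obtain ⟨s, r, hs, hr, hsr, he⟩ := h
  have e0 := congrFun he 0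
  have e1 := congrFun he 1
  simp only [Pi.add_apply, Pi.smul_apply, smul_eq_mul] at e0 e1
  push_cast at e0 e1
  have hr' : r = 1 - s := by linarith
  subst hr'
  have f0 : ((p 0 - x 0 : ℤ) : ℝ) = s * (v 0 : ℝ) := by push_cast; linarith
  have f1 : ((p 1 - x 1 : ℤ) : ℝ) = s * (v 1 : ℝ) := by push_cast; linarith
  have hs1 : s ≤ 1 := by linarith
  set D0 := p 0 - x 0 with hD0
  set D1 := p 1 - x 1 with hD1
  have c1 : D0 * v 1 = D1 * v 0 := by
    have : ((D0 * v 1 : ℤ) : ℝ) = ((D1 * v 0 : ℤ) : ℝ) := by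
      push_cast; rw [f0, f1]; ring
    exact_mod_cast this
  have c2 : 0 ≤ D0 * v 0 := by
    have : (0 : ℝ) ≤ ((D0 * v 0 : ℤ) : ℝ) := by
      push_cast; rw [f0]; nlinarith [mul_self_nonneg (v 0 : ℝ)]
    exact_mod_cast this
  have c3 : 0 ≤ D1 * v 1 := by
    have : (0 : ℝ) ≤ ((D1 * v 1 : ℤ) : ℝ) := by
      push_cast; rw [f1]; nlinarith [mul_self_nonneg (v 1 : ℝ)]
    exact_mod_cast this
  have hss : s * s ≤ 1 := by nlinarith
  have c4 : D0 * D0 ≤ v 0 * v 0 := by
    have : ((D0 * D0 : ℤ) : ℝ) ≤ ((v 0 * v 0 : ℤ) : ℝ) := by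
      push_cast; rw [f0]; nlinarith [mul_self_nonneg (v 0 : ℝ)]
    exact_mod_cast this
  have c5 : D1 * D1 ≤ v 1 * v 1 := by
    have : ((D1 * D1 : ℤ) : ℝ) ≤ ((v 1 * v 1 : ℤ) : ℝ) := by
      push_cast; rw [f1]; nlinarith [mul_self_nonneg (v 1 : ℝ)]
    exact_mod_cast this
  obtain ⟨h0a, h0b⟩ := abs_le.1 h0
  obtain ⟨h1a, h1b⟩ := abs_le.1 h1
  have b0 : -3 ≤ D0 ∧ D0 ≤ 3 := by constructor <;> nlinarith
  have b1 : -3 ≤ D1 ∧ D1 ≤ 3 := by constructor <;> nlinarith
  refine ⟨(D0 + 3).toNat, (D1 + 3).toNat, by omega, by omega, by omega, by omega, ?_⟩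
  have a0 : (((v 0 + 3).toNat : ℕ) : ℤ) - 3 = v 0 := by omega
  have a1 : (((v 1 + 3).toNat : ℕ) : ℤ) - 3 = v 1 := by omega
  have d0 : (((D0 + 3).toNat : ℕ) : ℤ) - 3 = D0 := by omega
  have d1 : (((D1 + 3).toNat : ℕ) : ℤ) - 3 = D1 := by omega
  unfold seg
  rw [a0, a1, d0, d1]
  simp [c1, c2, c3, c4, c5]

lemma no_slow (T : Traj 2) (hT : Feasible cities T) (hs : ∀ i ≤ T.len, ∀ k, |T.v i k| ≤ 3) :
    19 ≤ T.len := by
  by_contra hlen
  obtain ⟨hp0, hv0, hpl, hvl, idx, hmono, hle, hvis⟩ := hT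
  have hpos : ∀ t ≤ T.len, ∀ k, 0 ≤ T.p t k + 3 * t := by
    intro t
    induction t with
    | zero =>
      intro _ k
      rw [hp0]
      fin_cases k <;> simp [cities, cx, cy]
    | succ t ih =>
      intro ht k
      have h1 := ih (by omega) k
      have h2 := T.hv t (by omega) k
      have h3 := abs_le.1 (hs (t + 1) ht k)
      push_cast
      omega
  set A : ℕ → ℕ := fun t => (T.v t 0 + 3).toNat with hA
  set B : ℕ → ℕ := fun t => (T.v t 1 + 3).toNat with hB
  set Q : ℕ → ℕ := fun t => (T.p t 0 + 3 * t + 3).toNat * 128 + (T.p t 1 + 3 * t + 3).toNat with hQ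
  have hA7 : ∀ t ≤ T.len, A t < 7 ∧ B t < 7 := by
    intro t ht
    have h1 := abs_le.1 (hs t ht 0)
    have h2 := abs_le.1 (hs t ht 1)
    simp only [hA, hB]
    omega
  have hM : ∀ t ≤ T.len, ∀ j : Fin 6, idx j = t →
      (mask t (A t) (B t)).testBit (j * 16384 + Q t) = true := by
    intro t ht j hj
    have hv := hvis j
    rw [hj] at hv
    obtain ⟨dx, dy, h1, h2, h3, h4, h5⟩ := visit_seg _ _ _ hv (hs t ht 0) (hs t ht 1)
    have h6 := mask_bit t (A t) (B t) j dx dy j.2 h1 h2 h5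
    have e0 : cities j 0 = (cx j : ℤ) := rfl
    have e1 : cities j 1 = (cy j : ℤ) := rfl
    have q0 : (T.p t 0 + 3 * t + 3).toNat = cx j + dx + 3 * t := by omega
    have q1 : (T.p t 1 + 3 * t + 3).toNat = cy j + dy + 3 * t := by omega
    simp only [hQ, q0, q1]
    exact h6
  have key : ∀ t ≤ T.len, ∀ k ≤ 6, (∀ j : Fin 6, (j : ℕ) < k → idx j ≤ t) →
      (get (tab t) (A t) (B t)).testBit (k * 16384 + Q t) = true := by
    intro t
    induction t with
    | zero =>
      intro ht k hk hj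
      have a0 : A 0 = 3 := by simp [hA, hv0]
      have b0 : B 0 = 3 := by simp [hB, hv0]
      have q0 : Q 0 = 12 * 128 + 12 := by simp [hQ, hp0, cities, cx, cy]
      have hM0 := hM 0 ht
      rw [a0, b0] at hM0 ⊢
      unfold tab
      rw [get_map _ 3 3 (by omega) (by omega)]
      unfold tab0
      rw [if_pos (by norm_num)]
      have h := close_bit (mask 0 3 3) (Q 0) 6 (1 <<< (12 * 128 + 12)) 0 k hk ?_ ?_
      · simpa using h
      · rw [q0]
        have := shl_bit 1 (12 * 128 + 12) 0 (by decide)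
        simpa using this
      · intro j _ h2
        have h3 : j < 6 := by omega
        exact hM0 ⟨j, h3⟩ (Nat.le_zero.1 (hj ⟨j, h3⟩ (by simpa using h2)))
    | succ t ih =>
      intro ht k hk hj
      have hex : ∃ k0 ≤ k, (∀ j : Fin 6, (j : ℕ) < k0 → idx j ≤ t) ∧
          ∀ j : Fin 6, k0 ≤ (j : ℕ) → (j : ℕ) < k → idx j = t + 1 := by
        classical
        by_cases hall : ∀ j : Fin 6, (j : ℕ) < k → idx j ≤ t
        · exact ⟨k, le_rfl, hall, fun j h1 h2 => by omega⟩
        · push Not at hall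
          have hne : ∃ m : ℕ, ∃ h : m < 6, m < k ∧ t < idx ⟨m, h⟩ := by
            obtain ⟨j, h1, h2⟩ := hall
            exact ⟨j, j.2, h1, h2⟩
          obtain ⟨h6, hk0, ht0⟩ := Nat.find_spec hne
          refine ⟨Nat.find hne, hk0.le, ?_, ?_⟩
          · intro j hj0
            have := Nat.find_min hne hj0
            push Not at this
            exact this j.2 (by omega)
          · intro j h1 h2
            have h3 : idx ⟨Nat.find hne, h6⟩ ≤ idx j := hmono (by exact h1)
            have h4 := hj j h2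
            omega
      obtain ⟨k0, hk0, h1, h2⟩ := hex
      have hprev := ih (by omega) k0 (by omega) h1
      obtain ⟨ha, hb⟩ := hA7 (t + 1) ht
      obtain ⟨ha', hb'⟩ := hA7 t (by omega)
      unfold tab
      rw [get_map _ _ _ ha hb]
      unfold cell
      rw [force_eq, force_eq, show (A (t + 1) * 7 + B (t + 1)) / 7 = A (t + 1) by omega,
        show (A (t + 1) * 7 + B (t + 1)) % 7 = B (t + 1) by omega]
      have h := close_bit (mask (t + 1) (A (t + 1)) (B (t + 1))) (Q (t + 1)) 6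
        (nb (tab t) (A (t + 1)) (B (t + 1)) <<< (A (t + 1) * 128 + B (t + 1))) k0 (k - k0)
        (by omega) ?_ ?_
      · rwa [show k0 + (k - k0) = k by omega] at h
      · have x0 := T.ha t (by omega) 0
        have x1 := T.ha t (by omega) 1
        have y0 := T.hv t (by omega) 0
        have y1 := T.hv t (by omega) 1
        have z0 := hpos t (by omega) 0
        have z1 := hpos t (by omega) 1
        have w0 := abs_le.1 (hs (t + 1) ht 0)
        have w1 := abs_le.1 (hs (t + 1) ht 1)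
        have u0 := abs_le.1 (hs t (by omega) 0)
        have u1 := abs_le.1 (hs t (by omega) 1)
        have hq : k0 * 16384 + Q (t + 1) = k0 * 16384 + Q t + (A (t + 1) * 128 + B (t + 1)) := by
          simp only [hQ, hA, hB]
          push_cast
          omega
        rw [hq]
        apply shl_bit
        unfold nb
        apply orL_bit _ _ 3 (A t + 1 - A (t + 1)) (by simp only [hA]; omega)
        apply orL_bit _ _ 3 (B t + 1 - B (t + 1)) (by simp only [hB]; omega)
        rw [show A (t + 1) + (A t + 1 - A (t + 1)) - 1 = A t by simp only [hA]; omega,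
          show B (t + 1) + (B t + 1 - B (t + 1)) - 1 = B t by simp only [hB]; omega]
        exact hprev
      · intro j h3 h4
        have h5 : j < 6 := by omega
        exact hM (t + 1) ht ⟨j, h5⟩ (h2 ⟨j, h5⟩ h3 (by simp; omega))
  have h := key T.len le_rfl 6 le_rfl (fun j _ => hle j)
  have a0 : A T.len = 3 := by simp [hA, hvl]
  have b0 : B T.len = 3 := by simp [hB, hvl]
  have q0 : Q T.len = (12 + 3 * T.len) * 128 + (5 + 3 * T.len) := by
    have e0 : T.p T.len 0 = 9 := by rw [hpl]; rfl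
    have e1 : T.p T.len 1 = 2 := by rw [hpl]; rfl
    simp only [hQ, e0, e1]
    omega
  rw [a0, b0, q0, final_false T.len (by omega)] at h
  exact absurd h (by simp)

def fx (i : ℕ) : ℤ := [9, 10, 10, 9, 7, 4, 0, -3, -5, -6, -6, -5, -3, 0, 3, 6, 8, 9, 9].getD i 0
def fy (i : ℕ) : ℤ := [9, 8, 6, 4, 3, 2, 2, 3, 5, 7, 9, 10, 10, 9, 7, 5, 3, 2, 2].getD i 0

def fast : Traj 2 where
  len := 18
  p := fun i => ![fx i, fy i]
  v := fun i => ![fx i - fx (i - 1), fy i - fy (i - 1)]
  hv := by decide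
  ha := by decide

lemma fast_feasible : Feasible cities fast := by
  refine ⟨by decide, by decide, by decide, by decide, ![0, 5, 6, 6, 13, 17], by decide,
    by decide, ?_⟩
  intro j
  fin_cases j
  · refine ⟨0, 1, by norm_num, by norm_num, by norm_num, ?_⟩
    ext k; fin_cases k <;> simp [fast, cities, fx, fy, cx, cy]
  · refine ⟨0, 1, by norm_num, by norm_num, by norm_num, ?_⟩
    ext k; fin_cases k <;> simp [fast, cities, fx, fy, cx, cy]
  · refine ⟨1 / 4, 3 / 4, by norm_num, by norm_num, by norm_num, ?_⟩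
    ext k; fin_cases k <;> simp [fast, cities, fx, fy, cx, cy]
    norm_num
  · refine ⟨0, 1, by norm_num, by norm_num, by norm_num, ?_⟩
    ext k; fin_cases k <;> simp [fast, cities, fx, fy, cx, cy]
  · refine ⟨0, 1, by norm_num, by norm_num, by norm_num, ?_⟩
    ext k; fin_cases k <;> simp [fast, cities, fx, fy, cx, cy]
  · refine ⟨0, 1, by norm_num, by norm_num, by norm_num, ?_⟩
    ext k; fin_cases k <;> simp [fast, cities, fx, fy, cx, cy]

lemma spread_eq : spread cities = 9 := by decide +kernel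

lemma opt_fast (T : Traj 2) (hT : Optimal cities T) : ∃ i ≤ T.len, ∃ k, 4 ≤ |T.v i k| := by
  by_contra hc
  push Not at hc
  have h1 := no_slow T hT.1 (fun i hi k => by have := hc i hi k; omega)
  have h2 : T.len ≤ 18 := hT.2 fast fast_feasible
  omega

theorem result :
    (¬ ∀ d : ℕ, 1 ≤ d → ∀ (n : ℕ) (x : Fin (n + 1) → Fin d → ℤ),
      ∃ T : Traj d, Optimal x T ∧
        ∀ i ≤ T.len, ∀ k, |(T.v i k : ℝ)| ≤ Real.sqrt (spread x : ℝ)) ∧
    ∃ x : Fin (5 + 1) → Fin 2 → ℤ, spread x = 9 ∧ (∃ T, Feasible x T) ∧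
      ∀ T, Optimal x T → ∃ i ≤ T.len, ∃ k, 4 ≤ |T.v i k| := by
  refine ⟨?_, cities, spread_eq, ⟨fast, fast_feasible⟩, opt_fast⟩
  intro h
  obtain ⟨T, hT, hs⟩ := h 2 (by omega) 5 cities
  obtain ⟨i, hi, k, hk⟩ := opt_fast T hT
  have h1 := hs i hi k
  rw [spread_eq, show ((9 : ℕ) : ℝ) = 3 ^ 2 by norm_num, Real.sqrt_sq (by norm_num)] at h1
  have h2 : ((4 : ℤ) : ℝ) ≤ ((|T.v i k| : ℤ) : ℝ) := by exact_mod_cast hk
  push_cast at h2
  linarith

end Pool.Agent.Results.MP_98930f_lc.Counter
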